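import Pool.Agent.H87.IS.Stmts

/-!
Row DTI of board isq (project ISO of helper87): finite determinacy, an exact formal change of coordinates.
-/

set_option autoImplicit false

namespace Pool.Agent.H87.IS

open MvPolynomial Pool.Agent.H39.MonoR Pool.Agent.H75.Mono Pool.Agent.H87.QF

namespace DTIAux

variable {k : Type} [Field k] {σ : Type}

theorem ord_add {M : ℕ} {p q : MvPolynomial σ k} (hp : Ord M p) (hq : Ord M q) :
    Ord M (p + q) := by
  intro m hm
  rw [coeff_add, hp m hm, hq m hm, add_zero]

theorem ord_mul_right {M : ℕ} {p : MvPolynomial σ k} (hp : Ord M p) (q : MvPolynomial σ k) :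
    Ord M (p * q) := by
  classical
  intro m hm
  rw [coeff_mul]
  refine Finset.sum_eq_zero fun x hx => ?_
  have hx' : x.1 + x.2 = m := Finset.HasAntidiagonal.mem_antidiagonal.1 hx
  have hd : x.1.degree + x.2.degree = m.degree := by rw [← hx', map_add]
  rw [hp x.1 (by omega), zero_mul]

theorem ord_mul_left {M : ℕ} {p : MvPolynomial σ k} (hp : Ord M p) (q : MvPolynomial σ k) :
    Ord M (q * p) := by
  rw [mul_comm]; exact ord_mul_right hp q

theorem ord_shift {e : ℕ} {b : σ → MvPolynomial σ k} (hb : ∀ i, Ord e (b i))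
    (p : MvPolynomial σ k) : Ord e (aeval (fun i => X i + b i) p - p) := by
  induction p using MvPolynomial.induction_on with
  | C a =>
    intro m _
    simp
  | add p q hp hq =>
    have : aeval (fun i => X i + b i) (p + q) - (p + q) =
        (aeval (fun i => X i + b i) p - p) + (aeval (fun i => X i + b i) q - q) := by
      rw [map_add]; ring
    rw [this]
    exact ord_add hp hq
  | mul_X p i hp =>
    have : aeval (fun i => X i + b i) (p * X i) - (p * X i) =
        (aeval (fun i => X i + b i) p - p) * (X i + b i) + p * b i := by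
      rw [map_mul, aeval_X]; ring
    rw [this]
    exact ord_add (ord_mul_right hp _) (ord_mul_left (hb i) _)

/-- power series without coefficients in degrees less than `e` -/
def OrdS (e : ℕ) (h : MvPowerSeries σ k) : Prop :=
  ∀ m : σ →₀ ℕ, m.degree < e → MvPowerSeries.coeff m h = 0

theorem ordS_add {e : ℕ} {p q : MvPowerSeries σ k} (hp : OrdS e p) (hq : OrdS e q) :
    OrdS e (p + q) := by
  intro m hm
  rw [map_add, hp m hm, hq m hm, add_zero]

theorem ordS_mul_right {e : ℕ} {p : MvPowerSeries σ k} (hp : OrdS e p) (q : MvPowerSeries σ k) :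
    OrdS e (p * q) := by
  classical
  intro m hm
  rw [MvPowerSeries.coeff_mul]
  refine Finset.sum_eq_zero fun x hx => ?_
  have hx' : x.1 + x.2 = m := Finset.HasAntidiagonal.mem_antidiagonal.1 hx
  have hd : x.1.degree + x.2.degree = m.degree := by rw [← hx', map_add]
  rw [hp x.1 (by omega), zero_mul]

theorem ordS_mul_left {e : ℕ} {p : MvPowerSeries σ k} (hp : OrdS e p) (q : MvPowerSeries σ k) :
    OrdS e (q * p) := by
  rw [mul_comm]; exact ordS_mul_right hp q

theorem ordS_aeval {e : ℕ} {ψ : σ → MvPowerSeries σ k} {φ : σ → MvPolynomial σ k}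
    (h : ∀ i, OrdS e (ψ i - (φ i : MvPowerSeries σ k))) (p : MvPolynomial σ k) :
    OrdS e (aeval ψ p - ((aeval φ p : MvPolynomial σ k) : MvPowerSeries σ k)) := by
  induction p using MvPolynomial.induction_on with
  | C a =>
    have : aeval ψ (C a : MvPolynomial σ k) -
        ((aeval φ (C a) : MvPolynomial σ k) : MvPowerSeries σ k) = 0 := by
      rw [aeval_C, aeval_C, MvPolynomial.algebraMap_eq, MvPolynomial.coe_C]
      exact sub_self _
    rw [this]
    intro m _
    exact map_zero _
  | add p q hp hq =>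
    have : aeval ψ (p + q) - ((aeval φ (p + q) : MvPolynomial σ k) : MvPowerSeries σ k) =
        (aeval ψ p - ((aeval φ p : MvPolynomial σ k) : MvPowerSeries σ k)) +
        (aeval ψ q - ((aeval φ q : MvPolynomial σ k) : MvPowerSeries σ k)) := by
      rw [map_add, map_add, MvPolynomial.coe_add]; ring
    rw [this]
    exact ordS_add hp hq
  | mul_X p i hp =>
    have : aeval ψ (p * X i) - ((aeval φ (p * X i) : MvPolynomial σ k) : MvPowerSeries σ k) =
        (aeval ψ p - ((aeval φ p : MvPolynomial σ k) : MvPowerSeries σ k)) * ψ i +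
        ((aeval φ p : MvPolynomial σ k) : MvPowerSeries σ k) *
          (ψ i - (φ i : MvPowerSeries σ k)) := by
      rw [map_mul, map_mul, aeval_X, aeval_X, MvPolynomial.coe_mul]; ring
    rw [this]
    exact ordS_add (ordS_mul_right hp _) (ordS_mul_left (h i) _)

/-- dependent recursion -/
theorem exists_seq {α : Type} (P : ℕ → α → Prop) (R : ℕ → α → α → Prop) (a : α) (ha : P 0 a)
    (hs : ∀ n x, P n x → ∃ y, P (n + 1) y ∧ R n x y) :
    ∃ u : ℕ → α, u 0 = a ∧ (∀ n, P n (u n)) ∧ ∀ n, R n (u n) (u (n + 1)) := by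
  choose g hg1 hg2 using hs
  let v : ∀ n : ℕ, {x : α // P n x} := fun n =>
    Nat.rec (motive := fun n => {x : α // P n x}) ⟨a, ha⟩
      (fun n x => ⟨g n x.1 x.2, hg1 n x.1 x.2⟩) n
  exact ⟨fun n => (v n).1, rfl, fun n => (v n).2, fun n => hg2 n (v n).1 (v n).2⟩

end DTIAux

open DTIAux in
/-- finite determinacy: an exact formal change of coordinates -/
theorem DTI (h1 : DT1Stmt) : DTIStmt := by
  intro k _ σ _ _ f F x0 φ N M₀ hN hM hstar hx0 hdet hord
  -- the sequence
  obtain ⟨Φ, hΦ0, hΦP, hΦR⟩ := exists_seq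
    (fun n (χ : σ → MvPolynomial σ k) => Ord (M₀ + n) (aeval χ f - F))
    (fun n χ χ' => ∀ i, Ord (M₀ + n - N) (χ' i - χ i)) φ (by simpa using hord)
    (by
      intro n χ hχ
      obtain ⟨b, hb, hb'⟩ := h1 k σ F (aeval χ f) N (M₀ + n) hN (by omega) hstar hχ
      refine ⟨fun i => aeval (fun i => X i + b i) (χ i), ?_, fun i => ord_shift hb (χ i)⟩
      have : aeval (fun i => aeval (fun i => X i + b i) (χ i)) f =
          aeval (fun i => X i + b i) (aeval χ f) := by
        rw [← MvPolynomial.comp_aeval_apply]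
      rw [this]
      exact hb')
  -- stability of the coefficients
  have hst : ∀ (n : ℕ) (d : ℕ) (m : σ →₀ ℕ) (i : σ), m.degree < M₀ + n - N →
      coeff m (Φ (n + d) i) = coeff m (Φ n i) := by
    intro n d m i hm
    induction d with
    | zero => rfl
    | succ d ih =>
      have := hΦR (n + d) i m (by omega)
      rw [coeff_sub, sub_eq_zero] at this
      rw [← add_assoc, this, ih]
  have hst' : ∀ (n n' : ℕ) (m : σ →₀ ℕ) (i : σ), m.degree < M₀ + n - N →
      m.degree < M₀ + n' - N → coeff m (Φ n' i) = coeff m (Φ n i) := by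
    intro n n' m i hm hm'
    rcases le_total n n' with h | h
    · obtain ⟨d, rfl⟩ := Nat.exists_eq_add_of_le h
      exact hst n d m i hm
    · obtain ⟨d, rfl⟩ := Nat.exists_eq_add_of_le h
      exact (hst n' d m i hm').symm
  -- the limit
  let ψ : σ → MvPowerSeries σ k := fun i m => coeff m (Φ m.degree i)
  have hψ : ∀ (i : σ) (m : σ →₀ ℕ), MvPowerSeries.coeff m (ψ i) = coeff m (Φ m.degree i) :=
    fun i m => rfl
  have hψn : ∀ (n : ℕ) (i : σ), OrdS (M₀ + n - N) (ψ i - (Φ n i : MvPowerSeries σ k)) := by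
    intro n i m hm
    rw [map_sub, hψ, MvPolynomial.coeff_coe, hst' n m.degree m i hm (by omega), sub_self]
  refine ⟨ψ, ?_, ?_, ?_⟩
  · intro i
    have := hψ i 0
    rw [MvPowerSeries.coeff_zero_eq_constantCoeff_apply] at this
    rw [this, map_zero, hΦ0, hx0 i]
  · have : (Matrix.of fun i j => MvPowerSeries.coeff (Finsupp.single j 1) (ψ i)) = jac φ := by
      ext i j
      have hd : (Finsupp.single j 1 : σ →₀ ℕ).degree = 1 := by simp
      have := hψn 0 i (Finsupp.single j 1) (by omega)
      rw [map_sub, MvPolynomial.coeff_coe, hΦ0, sub_eq_zero] at this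
      simpa [jac] using this
    rw [this]
    exact hdet
  · ext m
    have h2 := ordS_aeval (hψn m.degree) f m (by omega)
    have h3 := hΦP m.degree m (by omega)
    rw [map_sub, MvPolynomial.coeff_coe, sub_eq_zero] at h2
    rw [coeff_sub, sub_eq_zero] at h3
    rw [h2, h3, MvPolynomial.coeff_coe]

end Pool.Agent.H87.IS
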